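import Mathlib
import Pool.Agent.N988.EA.Defs2
import Pool.Agent.N988.EA.Defs3

/-!
# Spin glass measures of the Edwards-Anderson model on the hierarchical lattice of dimension two

The hierarchical (diamond, Migdal-Kadanoff) lattices `H n` with two branches (`Edge 2 n`, `Vert 2 n`,
`Pt 2 n`, `emb`, `bd`, `sg`, `act`, `Z`) are defined in `Pool.Agent.N988.EA.Defs`, the edges
`EdgeInf 2 p` of the infinite lattice and the couplings `cpl p w n` of `H n` in
`Pool.Agent.N988.EA.Defs2`, unimodal laws `Uni` in `Pool.Agent.N988.EA.Defs3`.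
-/

open MeasureTheory
open Pool.Agent.N988.EA

namespace Pool.Agent.N990.EJ

noncomputable section

/-- The vertices of the infinite lattice, the union of `H 0 ⊆ H 1 ⊆ …`, where `H n` is the half
`(p n).2` of the branch `(p n).1` of `H (n + 1)`: those of `H 0`, and for every `n` the vertices of
`H (n + 1)` which are not in `H n`. -/
def VInf (p : ℕ → Fin 2 × Bool) : Type :=
  Pt 2 0 ⊕ (Σ n : ℕ, {x : Pt 2 (n + 1) // ∀ y, emb (p n).1 (p n).2 y ≠ x})

open Classical in
/-- A vertex of `H n` as a vertex of the infinite lattice. -/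
def inc (p : ℕ → Fin 2 × Bool) : (n : ℕ) → Pt 2 n → VInf p
  | 0, x => .inl x
  | n + 1, x => if h : ∃ y, emb (p n).1 (p n).2 y = x then inc p n h.choose
      else .inr ⟨n, ⟨x, fun y hy => h ⟨y, hy⟩⟩⟩

open Classical in
/-- The configuration `σ` of the infinite lattice with the spins inside `H n` replaced by `s`. -/
def repl (p : ℕ → Fin 2 × Bool) (n : ℕ) (σ : VInf p → Bool) (s : Vert 2 n → Bool) :
    VInf p → Bool :=
  fun v => if h : ∃ x : Vert 2 n, inc p n (.inr x) = v then s h.choose else σ v

/-- The Gibbs distribution of the spins inside `H n`, for the couplings `J` (times the inverse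
temperature) and the spins `τ` at the ends. -/
def gw {n : ℕ} (J : Edge 2 n → ℝ) (τ : Bool → Bool) (s : Vert 2 n → Bool) : ℝ :=
  Real.exp (act J τ s) / Z J τ

/-- `ρ` is an EA spin glass measure at the inverse temperature `β` on the infinite hierarchical
lattice, for couplings with law `μ`: a joint law of couplings `w` and spins `σ` such that the `w e`
are independent with law `μ` and, for every `n`, the spins inside `H n` have, given `w` and all other
spins, the Gibbs distribution of `H n` with the given spins at the ends of `H n`. -/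
structure IsEA (μ : Measure ℝ) (β : ℝ) (p : ℕ → Fin 2 × Bool)
    (ρ : Measure ((EdgeInf 2 p → ℝ) × (VInf p → Bool))) : Prop where
  couplings : ρ.map Prod.fst = Measure.infinitePi fun _ : EdgeInf 2 p => μ
  dlr : ∀ (n : ℕ) (f : (EdgeInf 2 p → ℝ) × (VInf p → Bool) → ℝ), Measurable f →
    (∃ C, ∀ ω, |f ω| ≤ C) →
    ∫ ω, f ω ∂ρ = ∫ ω, ∑ s : Vert 2 n → Bool,
      gw (fun e => β * cpl p ω.1 n e) (fun t => ω.2 (inc p n (.inl t))) s *
        f (ω.1, repl p n ω.2 s) ∂ρ

/-- The laws of the couplings: `1` and `-1` with probability one half, or a law with an even density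
which is decreasing on the positive half-line, with exponential moments. -/
def Law (μ : Measure ℝ) : Prop :=
  μ = pm ∨ (Uni μ ∧ ∃ c : ℝ, 0 < c ∧ Integrable (fun x => Real.exp (c * |x|)) μ)

/-- The correlation of the spins at the two ends of `H n`, at distance `2 ^ n`, with free boundary
conditions. -/
def corr {n : ℕ} (J : Edge 2 n → ℝ) : ℝ :=
  (∑ τ : Bool → Bool, sg (τ false) * sg (τ true) * Z J τ) / ∑ τ : Bool → Bool, Z J τ

end

end Pool.Agent.N990.EJ
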