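import Mathlib
import Pool.Agent.N990.EJ.Defs
import Pool.Agent.N988.EA.Stm5

/-!
# Spin glass measures on the hierarchical lattice of dimension two: statements of the parts

Theorem: for every `β` and every law of the couplings with `Law μ` (`±1`, Gaussian) there is exactly
one EA spin glass measure, and `E corr² ≤ C exp (-c 2^n)`: finite correlation length at every
temperature.
-/

open MeasureTheory
open Pool.Agent.N988.EA

namespace Pool.Agent.N990.EJ

noncomputable section

/-- The conditional expectation given the couplings and the spins outside the interior of `H n`. -/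
def GJ (β : ℝ) (p : ℕ → Fin 2 × Bool) (n : ℕ) (f : (EdgeInf 2 p → ℝ) × (VInf p → Bool) → ℝ)
    (ω : (EdgeInf 2 p → ℝ) × (VInf p → Bool)) : ℝ :=
  ∑ s : Vert 2 n → Bool, gw (fun e => β * cpl p ω.1 n e) (fun t => ω.2 (inc p n (.inl t))) s *
    f (ω.1, repl p n ω.2 s)

/-- The configuration `s` with the spins inside the half `q.2` of the branch `q.1` replaced. -/
def upd (n : ℕ) (q : Fin 2 × Bool) (s : Vert 2 (n + 1) → Bool) (s' : Vert 2 n → Bool) :
    Vert 2 (n + 1) → Bool :=
  fun x => Sum.elim (fun i : Fin 2 => s (Sum.inl i : Vert 2 (n + 1)))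
    (fun y : Fin 2 × Bool × Vert 2 n => if (y.1, y.2.1) = q then s' y.2.2
      else s (Sum.inr y : Vert 2 (n + 1))) x

/-- GEO: the vertices of the infinite lattice. The proof for spins in `AddCircle` is in
`Pool/Agent/N751/RT/GEO.lean` (statement `Pool.Agent.N990.RT.S_GEO`); adapt it. -/
def S_GEO : Prop := ∀ (p : ℕ → Fin 2 × Bool),
  Countable (VInf p) ∧ Countable (EdgeInf 2 p) ∧
  (∀ n x, inc p (n + 1) (emb (p n).1 (p n).2 x) = inc p n x) ∧
  (∀ n, Function.Injective (inc p n)) ∧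
  (∀ v, ∃ n x, inc p n x = v) ∧
  (∀ n ω σ, (∀ x, repl p n ω σ (inc p n (.inr x)) = σ x) ∧
    (∀ v, (∀ x, inc p n (.inr x) ≠ v) → repl p n ω σ v = ω v)) ∧
  (∀ n ω σ σ', repl p n (repl p (n + 1) ω σ) σ' = repl p (n + 1) ω (upd n (p n) σ σ')) ∧
  (∀ n σ, Continuous fun ω : VInf p → Bool => repl p n ω σ) ∧
  (∀ n σ, Measurable fun ω : VInf p → Bool => repl p n ω σ) ∧
  (∀ n, Continuous fun w : EdgeInf 2 p → ℝ => cpl p w n) ∧
  (∀ n, Measurable fun w : EdgeInf 2 p → ℝ => cpl p w n) ∧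
  ∀ (w : EdgeInf 2 p → ℝ) n (e : Edge 2 n), cpl p w (n + 1) ((p n).1, (p n).2, e) = cpl p w n e

/-- GWF: the weights. -/
def S_GWF : Prop := ∀ (n : ℕ),
  (∀ (J : Edge 2 n → ℝ) τ s, 0 ≤ gw J τ s) ∧
  (∀ (J : Edge 2 n → ℝ) τ, ∑ s, gw J τ s = 1) ∧
  (∀ τ s, Continuous fun J : Edge 2 n → ℝ => gw J τ s) ∧
  (∀ τ s, Measurable fun J : Edge 2 n → ℝ => gw J τ s)

/-- FIN: the finite volume Gibbs distributions are consistent (finite sums). Proof:
`act J τ s` is the sum over the halves `q` of `act (J restricted to q) (ends of q) (s inside q)`. The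
proof for spins in `AddCircle` is in `Pool/Agent/N415/RT/FIN.lean`. -/
def S_FIN : Prop := ∀ (n : ℕ) (J : Edge 2 (n + 1) → ℝ) (q : Fin 2 × Bool) (τ : Bool → Bool)
  (G : (Vert 2 (n + 1) → Bool) → ℝ),
  ∑ s, gw J τ s * G s = ∑ s, gw J τ s * ∑ s' : Vert 2 n → Bool,
    gw (fun e => J (q.1, q.2, e)) (fun t => (Sum.elim τ s : Pt 2 (n + 1) → Bool)
      (emb q.1 q.2 (.inl t))) s' * G (upd n q s s')

/-- CNS (from `S_FIN`, `S_GEO`). -/
def S_CNS : Prop := ∀ (β : ℝ) (p : ℕ → Fin 2 × Bool) (n : ℕ)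
  (f : (EdgeInf 2 p → ℝ) × (VInf p → Bool) → ℝ) ω, GJ β p (n + 1) (GJ β p n f) ω = GJ β p (n + 1) f ω

/-- EXI (from `S_CNS`, `S_GEO`, `S_GWF`): existence, for every law. Proof: let `ρ_N` be the law of
`(w, repl p N (fun _ => false) s)`, `w` with the product law `P`, `s` given `w` with law `gw`; so
`∫ f ∂ρ_N = ∫ GJ β p N f (w, fun _ => false) ∂P`. By `S_CNS` and induction
`GJ β p N (GJ β p n f) = GJ β p N f` for `n ≤ N`, so `∫ GJ β p n f ∂ρ_N = ∫ f ∂ρ_N`. The `ρ_N` are
tight (first marginal `P` on a Polish space, second factor compact), so by Prokhorov's theorem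
(`isCompact_closure_of_isTightMeasureSet`) there is a cluster point (limit along an ultrafilter); it
has the first marginal `P`, and the equation holds for bounded continuous `f` (`GJ β p n f` is then
continuous and bounded), hence for all bounded measurable `f`. The analogous proof for `AddCircle`
without couplings is in `Pool/Agent/N712/RT/EXI.lean`. -/
def S_EXI : Prop := ∀ (μ : Measure ℝ) [IsProbabilityMeasure μ] (β : ℝ) (p : ℕ → Fin 2 × Bool),
  ∃ ρ, IsEA μ β p ρ

/-- DIS (from `S_GEO`, `S_GWF`): the conditional law given the couplings is almost surely a Gibbs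
state in the sense of `Pool.Agent.N988.EA.IsGibbs`. Proof: `nonneg`, `total`, `consistent` hold for
all `w` (`S_GEO`). `dlr`: for fixed `n`, `τ`, `s` both sides are measurable functions of `w`; their
integrals over every measurable set `A` of couplings agree by `IsEA.dlr` for
`f = 1_A (w) 1 {σ ∘ inc p n = Sum.elim τ s}` (then `GJ β p n f = 1_A gw .. 1 {ends = τ}`), with
`ρ = ρ.fst ⊗ₘ ρ.condKernel`; so they agree almost surely; there are countably many `n`, `τ`, `s`. -/
def S_DIS : Prop := ∀ (μ : Measure ℝ) [IsProbabilityMeasure μ] (β : ℝ) (p : ℕ → Fin 2 × Bool)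
  (ρ : Measure ((EdgeInf 2 p → ℝ) × (VInf p → Bool))) [IsFiniteMeasure ρ], IsEA μ β p ρ →
  ∀ [StandardBorelSpace (VInf p → Bool)],
  ∀ᵐ w ∂(Measure.infinitePi fun _ : EdgeInf 2 p => μ),
    IsGibbs p (fun e => β * w e) fun n s =>
      (ρ.condKernel w).real {σ | (fun x => σ (inc p n x)) = s}

/-- UNI (from `S_DIS`, `S_GEO`): uniqueness, if almost surely there is exactly one Gibbs state.
Proof: by `S_DIS` the conditional laws of two EA measures agree almost surely on the cylinders over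
`H n` for all `n`, hence everywhere (π-system), and
`ρ = (Measure.infinitePi μ) ⊗ₘ ρ.condKernel`. -/
def S_UNI : Prop := ∀ (μ : Measure ℝ) [IsProbabilityMeasure μ] (β : ℝ) (p : ℕ → Fin 2 × Bool),
  (∀ᵐ J ∂(Measure.infinitePi fun _ : EdgeInf 2 p => μ), ∃! γ, IsGibbs p (fun e => β * J e) γ) →
  ∀ ρ ρ', IsEA μ β p ρ → IsEA μ β p ρ' → ρ = ρ'

/-- COR (from the statements of `Pool.Agent.N988.EA`): finite correlation length. Proof: by `S_G`
`Z J τ = C exp (K τ τ')`, so `corr J = tanh (K n J)`; by `S_H` its law under the product measure is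
the image of `lw (μ.map (β * ·)) 2 n`, `q n = ∫ tanh² ∂(lw .. 2 n)`. `S_T`: `q (n + 1) ≤ 2 (q n)²`
(`lw` is symmetric), and `2 q m < 1` for some `m`: `S_T1` (`m = 1`) for `pm`, `S_LIM` for unimodal
laws. So `2 q (m + j) ≤ (2 q m) ^ (2 ^ j)`, which is `≤ C exp (-c 2^(m + j))` (`q m = 0` is trivial:
then all later ones are `0`). `q n ≤ 1` for `n < m`. -/
def S_COR : Prop := S_G → S_H → S_T → S_T1 → S_LIM → ∀ (μ : Measure ℝ) [IsProbabilityMeasure μ],
  Law μ → ∀ β : ℝ, ∃ C c : ℝ, 0 < c ∧ ∀ n : ℕ,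
    ∫ J, corr (fun e => β * J e) ^ 2 ∂(Measure.pi fun _ : Edge 2 n => μ) ≤
      C * Real.exp (-(c * 2 ^ n))

end

end Pool.Agent.N990.EJ
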