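import Mathlib
import Pool.Agent.N990.EJ.Stm
import Pool.Agent.N988.EA.Main2
import Pool.Agent.N14.EJ.GEO
import Pool.Agent.N982.EJ.GWF
import Pool.Agent.N946.EJ.FIN
import Pool.Agent.N371.EJ.CNS
import Pool.Agent.N524.EJ.DIS
import Pool.Agent.N409.EJ.UNI
import Pool.Agent.N572.EJ.COR
import Pool.Agent.N669.EJ.EXI

/-!
# Spin glass measures on the hierarchical lattice of dimension two: assembly
-/

open MeasureTheory
open Pool.Agent.N988.EA

namespace Pool.Agent.N990.EJ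

noncomputable section

theorem k_geo : S_GEO := Pool.Agent.N14.EJ.t_geo
theorem k_gwf : S_GWF := Pool.Agent.N982.EJ.t_gwf
theorem k_fin : S_FIN := Pool.Agent.N946.EJ.t_fin
theorem k_cns : S_CNS := Pool.Agent.N371.EJ.t_cns k_fin k_geo
theorem k_exi : S_EXI := Pool.Agent.N669.EJ.t_exi k_cns k_geo k_gwf
theorem k_dis : S_DIS := Pool.Agent.N524.EJ.t_dis k_geo k_gwf
theorem k_uni : S_UNI := Pool.Agent.N409.EJ.t_uni k_dis k_geo
theorem k_lim : S_LIM :=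
  Pool.Agent.N933.EA.t_LIM k_CON (Pool.Agent.N342.EA.t_INI Pool.Agent.N787.EA.t_AN)
theorem k_cor : S_COR := Pool.Agent.N572.EJ.COR.t_cor

theorem exactly_one (μ : Measure ℝ) [IsProbabilityMeasure μ] (h : Law μ) (β : ℝ)
    (p : ℕ → Fin 2 × Bool) (hp : ∀ (s : Bool) (k : ℕ), ∃ n, k ≤ n ∧ (p n).2 = s) :
    ∃! ρ : Measure ((EdgeInf 2 p → ℝ) × (VInf p → Bool)), IsEA μ β p ρ := by
  obtain ⟨ρ, hρ⟩ := k_exi μ β p
  exact ⟨ρ, hρ, fun ρ' h' => k_uni μ β p (k_two μ h β p hp) ρ' ρ h' hρ⟩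

end

end Pool.Agent.N990.EJ
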